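import Pool.Agent.H27.NetCaps

set_option autoImplicit false

namespace Pool.Agent.Results.MP_f4bed7_co.NotUniform

open Pool.Agent.H27.Net

theorem result :
    ∀ ε : ℝ, 0 < ε → ∃ k : ℕ, 1 ≤ k ∧ ∃ (V : Type) (G : SimpleGraph V),
      Infinite V ∧ G.Connected ∧ (∀ v : V, (G.neighborSet v).encard ≤ 9) ∧ 1 < cheeger G ∧
        ∃ S : Set V, IsNet G k S ∧ cheeger (netGraph G k S) < ε :=
  not_uniform

end Pool.Agent.Results.MP_f4bed7_co.NotUniform
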