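import Pool.Agent.H27.NetTree

set_option autoImplicit false

namespace Pool.Agent.Results.MP_f4bed7_co.TreeBound

open Pool.Agent.H27.Net

theorem result :
    ∀ (d : ℕ), 3 ≤ d → ∀ (V : Type) (G : SimpleGraph V), G.IsTree →
      (∀ v : V, (G.neighborSet v).ncard = d) →
      ∀ k : ℕ, 1 ≤ k → ∀ S : Set V, IsNet G k S →
        ((d : ℝ) - 1) ^ (k / 2 + 1) - 1 ≤ cheeger (netGraph G k S) :=
  fun _ hd _ _ hT hreg _ hk _ hS => tree_cheeger hT hd hreg hk hS

end Pool.Agent.Results.MP_f4bed7_co.TreeBound
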